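import Pool.Agent.N408.IB.Stm

/-!
# IB/BOD: the body of revolution is a convex body with the right support function (helper935)
-/

open Real Set MeasureTheory

namespace N935.IB.BOD

open IB408

theorem norm_ax : ‖ax‖ = 1 := by
  unfold ax
  rw [EuclideanSpace.norm_single, norm_one]

theorem inner_ax_ax : inner ℝ ax ax = (1 : ℝ) := by
  rw [real_inner_self_eq_norm_sq, norm_ax, one_pow]

theorem inner_self_one {u : E4} (hu : ‖u‖ = 1) : inner ℝ u u = (1 : ℝ) := by
  rw [real_inner_self_eq_norm_sq, hu, one_pow]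

theorem abs_inner_le {u : E4} (hu : ‖u‖ = 1) : |inner ℝ u ax| ≤ (1 : ℝ) := by
  have := abs_real_inner_le_norm u ax
  rwa [hu, norm_ax, mul_one] at this

theorem cos_psi {u : E4} (hu : ‖u‖ = 1) : cos (arccos (inner ℝ u ax)) = inner ℝ u ax := by
  have h := abs_le.1 (abs_inner_le hu)
  exact Real.cos_arccos h.1 h.2

/-- the norm of the component orthogonal to the axis -/
theorem norm_perp {u : E4} (hu : ‖u‖ = 1) :
    ‖u - (inner ℝ u ax : ℝ) • ax‖ = sin (arccos (inner ℝ u ax)) := by
  rw [Real.sin_arccos]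
  have h1 : ‖u - (inner ℝ u ax : ℝ) • ax‖ ^ 2 = 1 - (inner ℝ u ax : ℝ) ^ 2 := by
    rw [← real_inner_self_eq_norm_sq, inner_sub_left, inner_sub_right, inner_sub_right,
      inner_smul_left, inner_smul_right, inner_smul_right, inner_smul_left, inner_ax_ax,
      inner_self_one hu, real_inner_comm u ax]
    simp only [conj_trivial]
    ring
  rw [← h1, Real.sqrt_sq (norm_nonneg _)]

/-- the point of the body in the plane of the axis and of `f` -/
theorem mem_of {h : ℝ → ℝ} (hev : ∀ ψ, h (-ψ) = h ψ) {a a' : ℝ}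
    (ha : ∀ ψ, a * cos ψ + a' * sin ψ ≤ h ψ) {f : E4} (hf : ‖f‖ = 1)
    (hfx : inner ℝ f ax = (0 : ℝ)) : a • ax + a' • f ∈ Ks h := by
  intro u hu
  have h0 : inner ℝ (a • ax + a' • f) u = a * inner ℝ u ax + a' * (inner ℝ f u : ℝ) := by
    rw [inner_add_left, inner_smul_left, inner_smul_left, real_inner_comm u ax]
    simp only [conj_trivial]
  have h1 : (inner ℝ f u : ℝ) = inner ℝ f (u - (inner ℝ u ax : ℝ) • ax) := by
    rw [inner_sub_right, inner_smul_right, hfx, mul_zero, sub_zero]
  have h2 : |(inner ℝ f u : ℝ)| ≤ sin (arccos (inner ℝ u ax)) := by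
    rw [h1, ← norm_perp hu]
    have := abs_real_inner_le_norm f (u - (inner ℝ u ax : ℝ) • ax)
    rwa [hf, one_mul] at this
  obtain ⟨h3, h4⟩ := abs_le.1 h2
  have h5 := ha (arccos (inner ℝ u ax))
  have h6 := ha (-arccos (inner ℝ u ax))
  rw [hev, Real.cos_neg, Real.sin_neg] at h6
  rw [cos_psi hu] at h5 h6
  rw [h0]
  rcases le_total 0 a' with h7 | h7
  · nlinarith
  · nlinarith

theorem exists_f {u : E4} (hu : ‖u‖ = 1) : ∃ f : E4, ‖f‖ = 1 ∧ inner ℝ f ax = (0 : ℝ) ∧
    (inner ℝ f u : ℝ) = sin (arccos (inner ℝ u ax)) := by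
  have hn := norm_perp hu
  by_cases h : sin (arccos (inner ℝ u ax)) = 0
  · refine ⟨EuclideanSpace.single 1 1, ?_, ?_, ?_⟩
    · rw [EuclideanSpace.norm_single, norm_one]
    · unfold ax
      rw [EuclideanSpace.inner_single_left]
      simp
    · rw [h]
      rw [h, norm_eq_zero, sub_eq_zero] at hn
      rw [hn, inner_smul_right]
      unfold ax
      rw [EuclideanSpace.inner_single_left]
      simp
  · set s : ℝ := sin (arccos (inner ℝ u ax)) with hs
    have hs0 : 0 < s := by
      have : 0 ≤ s := by rw [← hn]; exact norm_nonneg _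
      exact lt_of_le_of_ne this (Ne.symm h)
    have h1 : (inner ℝ (u - (inner ℝ u ax : ℝ) • ax) ax : ℝ) = 0 := by
      rw [inner_sub_left, inner_smul_left, inner_ax_ax]
      simp
    have h2 : (inner ℝ (u - (inner ℝ u ax : ℝ) • ax) u : ℝ) = s ^ 2 := by
      have h3 : (inner ℝ (u - (inner ℝ u ax : ℝ) • ax) (u - (inner ℝ u ax : ℝ) • ax) : ℝ) =
          inner ℝ (u - (inner ℝ u ax : ℝ) • ax) u := by
        rw [inner_sub_right, inner_smul_right, h1, mul_zero, sub_zero]
      rw [← h3, real_inner_self_eq_norm_sq, hn]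
    refine ⟨s⁻¹ • (u - (inner ℝ u ax : ℝ) • ax), ?_, ?_, ?_⟩
    · rw [norm_smul, hn, Real.norm_of_nonneg (by positivity), inv_mul_cancel₀ h]
    · rw [inner_smul_left, h1, mul_zero]
    · rw [inner_smul_left, h2]
      simp only [conj_trivial]
      field_simp

theorem t : IB408.S_BOD := by
  intro h hP hsup
  obtain ⟨-, hev, -, hb, -⟩ := hP
  refine ⟨?_, ?_, ?_, ?_⟩
  · intro x hx y hy a a' ha ha' haa u hu
    have h1 := hx u hu
    have h2 := hy u hu
    rw [inner_add_left, inner_smul_left, inner_smul_left]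
    simp only [conj_trivial]
    have h3 := mul_le_mul_of_nonneg_left h1 ha
    have h4 := mul_le_mul_of_nonneg_left h2 ha'
    have h5 : a * h (arccos (inner ℝ u ax)) + a' * h (arccos (inner ℝ u ax)) =
        h (arccos (inner ℝ u ax)) := by
      rw [← add_mul, haa, one_mul]
    linarith
  · refine Metric.isCompact_of_isClosed_isBounded ?_ ?_
    · have e : Ks h = ⋂ (u : E4) (_ : ‖u‖ = 1),
          {x : E4 | inner ℝ x u ≤ h (arccos (inner ℝ u ax))} := by
        ext x
        simp only [Ks, mem_ofPred_eq, mem_iInter]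
      rw [e]
      refine isClosed_iInter fun u => isClosed_iInter fun _ => ?_
      exact isClosed_le (continuous_id.inner continuous_const) continuous_const
    · refine (Metric.isBounded_closedBall (x := (0 : E4)) (r := 2)).subset ?_
      intro x hx
      rw [mem_closedBall_zero_iff]
      by_cases h0 : x = 0
      · rw [h0, norm_zero]
        norm_num
      · have hx0 : 0 < ‖x‖ := norm_pos_iff.2 h0
        have h1 := hx (‖x‖⁻¹ • x) (by
          rw [norm_smul, norm_inv, norm_norm, inv_mul_cancel₀ hx0.ne'])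
        rw [inner_smul_right, real_inner_self_eq_norm_sq, pow_two, ← mul_assoc,
          inv_mul_cancel₀ hx0.ne', one_mul] at h1
        have h2 := (abs_le.1 (hb (arccos (inner ℝ (‖x‖⁻¹ • x) ax)))).2
        linarith
  · intro x hx u hu
    rw [mem_ball_zero_iff] at hx
    have h1 := real_inner_le_norm x u
    rw [hu, mul_one] at h1
    have h2 := (abs_le.1 (hb (arccos (inner ℝ u ax)))).1
    linarith
  · intro u hu
    obtain ⟨a, a', ha, ha0⟩ := hsup (arccos (inner ℝ u ax))
    obtain ⟨f, hf, hfx, hfu⟩ := exists_f hu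
    refine ⟨a • ax + a' • f, mem_of hev ha hf hfx, ?_⟩
    rw [inner_add_left, inner_smul_left, inner_smul_left, hfu, real_inner_comm u ax]
    simp only [conj_trivial]
    rw [cos_psi hu] at ha0
    exact ha0

end N935.IB.BOD
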